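import Mathlib
import Pool.Agent.Helper583.Words
import Pool.Agent.Helper583.Insep

set_option autoImplicit false

namespace Pool.Agent.Results.MP_8720f8_lc.Undecidable

open Pool.Agent.Helper583

universe u

/-- `Expressible G Bs A`: the word `A` is expressible in the words of the list `Bs` on the
group `G`. This is the smallest set of words that contains every variable and every word of
the list, is closed under substitution of members of the set for the variables of a member
of the set, and is closed under identical equality on `G`. -/
inductive Expressible (G : Type u) [Group G] (Bs : List Word) : Word → Prop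
  | var (j : ℕ) : Expressible G Bs [(j, true)]
  | base (B : Word) (hB : B ∈ Bs) : Expressible G Bs B
  | subst (W : Word) (hW : Expressible G Bs W) (U : ℕ → Word)
      (hU : ∀ p ∈ W, Expressible G Bs (U p.1)) : Expressible G Bs (wSubst U W)
  | congr (W W' : Word) (hW : Expressible G Bs W) (h : IdenticallyEqual G W W') :
      Expressible G Bs W'

theorem good_of_expressible {s : Type u} (α : Bool → s → s) (Bs : List Word)
    (hBs : ∀ B ∈ Bs, Good α B) {A : Word} (h : Expressible (Equiv.Perm (VV s)) Bs A) :
    Good α A := by
  induction h with
  | var j => exact Good.var α j
  | base B hB => exact hBs B hB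
  | subst W _ U _ ihW ih => exact ihW.subst α U ih
  | congr W W' _ h ih => exact ih.congr α h

/-- There is no algorithm that decides, given words `A, B_1, ..., B_n` with `n ≥ 1`, whether `A`
is expressible in `B_1, ..., B_n` on every finite group. -/
theorem result : ¬ ComputablePred fun p : Word × Word × List Word =>
    ∀ (G : Type u) [Group G] [Finite G], Expressible G (p.2.1 :: p.2.2) p.1 := by
  intro hP
  refine main_insep.{u}
    (fun A B Bs => ∀ (G : Type u) [Group G] [Finite G], Expressible G (B :: Bs) A) hP ?_ ?_
  · intro B Bs A h G _ _
    exact h G (Expressible G (B :: Bs))
      ⟨Expressible.var,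
        fun B' hB' σ hσ => Expressible.subst B' (Expressible.base B' hB') σ fun p _ => hσ p.1,
        fun W W' hW hc => Expressible.congr W W' hW hc⟩
  · intro s _ α B Bs A hB h
    exact good_of_expressible α (B :: Bs) hB (h (Equiv.Perm (VV s)))

end Pool.Agent.Results.MP_8720f8_lc.Undecidable
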